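import Mathlib

open Finset Filter Real

namespace Pool.Agent.H87.Rad

/-- The odd integers in `[1, K]`. -/
abbrev odds (K : ℕ) : Finset ℕ := (Icc 1 K).filter Odd

/-- `z(d,k,k') = 2 ^ d k - k'`. -/
abbrev zz (d k k' : ℕ) : ℤ := (k : ℤ) * 2 ^ d - k'

theorem zz_ne {d k k' : ℕ} (hd : 0 < d) (hk' : Odd k') : zz d k k' ≠ 0 := by
  intro h
  have h5 : k * 2 ^ d = k' := by
    have : ((k * 2 ^ d : ℕ) : ℤ) = k' := by
      push_cast
      unfold zz at h
      linarith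
    exact_mod_cast this
  have h6 : Even k' := by
    rw [← h5]
    exact (Nat.even_pow.mpr ⟨even_two, by omega⟩).mul_left k
  exact (Nat.not_even_iff_odd.mpr hk') h6

theorem zz_abs {d k k' K : ℕ} (hkK : k ≤ K) (hkK' : k' ≤ K) :
    (zz d k k').natAbs ≤ K * 2 ^ d := by
  have hp1 : (1 : ℤ) ≤ 2 ^ d := one_le_pow₀ (by norm_num)
  have hk0 : (0 : ℤ) ≤ k := Int.natCast_nonneg k
  have hk0' : (0 : ℤ) ≤ k' := Int.natCast_nonneg k'
  have hkKz : (k : ℤ) ≤ K := by exact_mod_cast hkK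
  have hkKz' : (k' : ℤ) ≤ K := by exact_mod_cast hkK'
  have h8 : |(k : ℤ) * 2 ^ d - k'| ≤ (K : ℤ) * 2 ^ d := by
    rw [abs_le]
    constructor
    · nlinarith
    · nlinarith
  have h9 : ((zz d k k').natAbs : ℤ) ≤ ((K * 2 ^ d : ℕ) : ℤ) := by
    rw [Int.natCast_natAbs]
    push_cast
    exact h8
  exact_mod_cast h9

theorem zz_dvd {q n n' k k' : ℕ} (hn : n ≤ n') (h1 : q ∣ 2 ^ n + k) (h2 : q ∣ 2 ^ n' + k') :
    (q : ℤ) ∣ zz (n' - n) k k' := by
  obtain ⟨j, rfl⟩ : ∃ j, n' = n + j := ⟨n' - n, by omega⟩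
  have hj2 : n + j - n = j := by omega
  rw [hj2]
  have e1 : (q : ℤ) ∣ ((2 ^ n + k : ℕ) : ℤ) := Int.natCast_dvd_natCast.mpr h1
  have e2 : (q : ℤ) ∣ ((2 ^ (n + j) + k' : ℕ) : ℤ) := Int.natCast_dvd_natCast.mpr h2
  have e3 := dvd_sub (dvd_mul_of_dvd_left e1 (2 ^ j)) e2
  have e4 : ((2 ^ n + k : ℕ) : ℤ) * 2 ^ j - ((2 ^ (n + j) + k' : ℕ) : ℤ)
      = (k : ℤ) * 2 ^ j - k' := by
    push_cast
    ring
  rwa [e4] at e3

/-- The distinct primes dividing a nonzero natural number. -/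
theorem sum_log_primes_le {z : ℕ} (hz : z ≠ 0) (P : Finset ℕ) (hP : ∀ p ∈ P, p.Prime)
    (hd : ∀ p ∈ P, p ∣ z) : ∑ p ∈ P, log (p : ℝ) ≤ log z := by
  have h1 : ∏ p ∈ P, p ∣ z :=
    Finset.prod_primes_dvd z (fun p hp => (hP p hp).prime) hd
  have h2 : ∏ p ∈ P, p ≤ z := Nat.le_of_dvd (Nat.pos_of_ne_zero hz) h1
  rw [← log_prod (fun p hp => by exact_mod_cast (hP p hp).ne_zero)]
  refine log_le_log ?_ ?_
  · exact prod_pos fun p hp => by exact_mod_cast (hP p hp).pos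
  · calc ∏ p ∈ P, (p : ℝ) = ((∏ p ∈ P, p : ℕ) : ℝ) := by push_cast; rfl
      _ ≤ z := by exact_mod_cast h2

/-- Pairs `(n, k)`, `n ∈ I`, `k ≤ K` odd, with `p ∣ 2 ^ n + k`. -/
abbrev TT (I : Finset ℕ) (K p : ℕ) : Finset (ℕ × ℕ) :=
  (I ×ˢ odds K).filter (fun x => p ∣ 2 ^ x.1 + x.2)

/-- Triples `(d, k, k')`. -/
abbrev VV (D K : ℕ) : Finset (ℕ × ℕ × ℕ) := (Ico 1 D) ×ˢ (odds K) ×ˢ (odds K)

theorem eq_of_dvd_add {p K n k k' : ℕ} (hpK : K < p) (hk : k ∈ odds K) (hk' : k' ∈ odds K)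
    (h1 : p ∣ 2 ^ n + k) (h2 : p ∣ 2 ^ n + k') : k = k' := by
  have m1 := mem_Icc.mp (mem_filter.mp hk).1
  have m2 := mem_Icc.mp (mem_filter.mp hk').1
  by_contra hne
  rcases lt_or_gt_of_ne hne with h | h
  · have h3 := Nat.dvd_sub h2 h1
    have e : 2 ^ n + k' - (2 ^ n + k) = k' - k := by omega
    rw [e] at h3
    have := Nat.le_of_dvd (by omega) h3
    omega
  · have h3 := Nat.dvd_sub h1 h2
    have e : 2 ^ n + k - (2 ^ n + k') = k - k' := by omega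
    rw [e] at h3
    have := Nat.le_of_dvd (by omega) h3
    omega

theorem exp_eq {p A L n n' k : ℕ} (hp : p.Prime) (hp2 : p ≠ 2)
    (hord : ∀ e, 1 ≤ e → e < L → ¬ p ∣ 2 ^ e - 1)
    (hn : n ∈ Ico A (A + L)) (hn' : n' ∈ Ico A (A + L))
    (h1 : p ∣ 2 ^ n + k) (h2 : p ∣ 2 ^ n' + k) : n = n' := by
  have key : ∀ a b : ℕ, a ∈ Ico A (A + L) → b ∈ Ico A (A + L) → p ∣ 2 ^ a + k → p ∣ 2 ^ b + k →
      ¬ a < b := by
    intro a b ha hb ha1 hb1 hab
    rw [mem_Ico] at ha hb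
    have h3 := Nat.dvd_sub hb1 ha1
    have e : 2 ^ b + k - (2 ^ a + k) = 2 ^ a * (2 ^ (b - a) - 1) := by
      rw [Nat.mul_sub, ← pow_add]
      have : a + (b - a) = b := by omega
      rw [this]
      omega
    rw [e] at h3
    rcases (hp.dvd_mul).mp h3 with h4 | h4
    · have := (Nat.prime_dvd_prime_iff_eq hp Nat.prime_two).mp (hp.dvd_of_dvd_pow h4)
      exact hp2 this
    · exact hord (b - a) (by omega) (by omega) h4
  have h3 := key n n' hn hn' h1 h2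
  have h4 := key n' n hn' hn h2 h1
  omega

theorem block {p K A L D : ℕ} (hp : p.Prime) (hp2 : p ≠ 2) (hpK : K < p) (hD : 0 < D)
    (hord : ∀ e, 1 ≤ e → e < L → ¬ p ∣ 2 ^ e - 1) :
    (TT (Ico A (A + L)) K p).card ≤
      (L / D + 1) + ((VV D K).filter (fun v => (p : ℤ) ∣ zz v.1 v.2.1 v.2.2)).card := by
  classical
  set T := TT (Ico A (A + L)) K p with hT
  set F := T.filter (fun x => ∀ y ∈ T, (y.1 - A) / D = (x.1 - A) / D → x.1 ≤ y.1) with hF
  set G := T.filter (fun x => ¬ ∀ y ∈ T, (y.1 - A) / D = (x.1 - A) / D → x.1 ≤ y.1) with hG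
  have hcard : T.card = F.card + G.card := by
    rw [hF, hG]
    exact (card_filter_add_card_filter_not _).symm
  have hTmem : ∀ x ∈ T, x.1 ∈ Ico A (A + L) ∧ x.2 ∈ odds K ∧ p ∣ 2 ^ x.1 + x.2 := by
    intro x hx
    have h1 := mem_filter.mp hx
    have h2 := mem_product.mp h1.1
    exact ⟨h2.1, h2.2, h1.2⟩
  have hFcard : F.card ≤ L / D + 1 := by
    rw [← card_range (L / D + 1)]
    refine card_le_card_of_injOn (fun x => (x.1 - A) / D) ?_ ?_
    · intro x hx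
      have hx1 := (mem_filter.mp (mem_coe.mp hx)).1
      have h1 := mem_Ico.mp (hTmem x hx1).1
      rw [mem_coe, mem_range]
      have : (x.1 - A) / D ≤ L / D := Nat.div_le_div_right (by omega)
      exact Nat.lt_succ_of_le this
    · intro x hx y hy hxy
      have hx1 := mem_filter.mp (mem_coe.mp hx)
      have hy1 := mem_filter.mp (mem_coe.mp hy)
      simp only at hxy
      have h1 := hx1.2 y hy1.1 hxy.symm
      have h2 := hy1.2 x hx1.1 hxy
      have h3 : x.1 = y.1 := le_antisymm h1 h2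
      have hx2 := hTmem x hx1.1
      have hy2 := hTmem y hy1.1
      have h4 : x.2 = y.2 := by
        refine eq_of_dvd_add (n := x.1) hpK hx2.2.1 hy2.2.1 hx2.2.2 ?_
        rw [h3]
        exact hy2.2.2
      exact Prod.ext h3 h4
  have hGcard : G.card ≤ ((VV D K).filter (fun v => (p : ℤ) ∣ zz v.1 v.2.1 v.2.2)).card := by
    have hex : ∀ x : ℕ × ℕ, ∃ y : ℕ × ℕ, x ∈ G → (y ∈ T ∧ (y.1 - A) / D = (x.1 - A) / D ∧ y.1 < x.1) := by
      intro x
      by_cases hx : x ∈ G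
      · have h1 := (mem_filter.mp hx).2
        push Not at h1
        obtain ⟨y, hy, hy1, hy2⟩ := h1
        exact ⟨y, fun _ => ⟨hy, hy1, hy2⟩⟩
      · exact ⟨x, fun h => absurd h hx⟩
    choose f hf using hex
    refine card_le_card_of_injOn (fun x => (x.1 - (f x).1, (f x).2, x.2)) ?_ ?_
    · intro x hx
      have hxG := mem_coe.mp hx
      have hxT := (mem_filter.mp hxG).1
      obtain ⟨hy, hy1, hy2⟩ := hf x hxG
      have hx2 := hTmem x hxT
      have hy3 := hTmem (f x) hy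
      have m1 := mem_Ico.mp hx2.1
      have m2 := mem_Ico.mp hy3.1
      refine mem_coe.mpr (mem_filter.mpr ⟨mem_product.mpr ⟨mem_Ico.mpr ⟨?_, ?_⟩,
        mem_product.mpr ⟨hy3.2.1, hx2.2.1⟩⟩, ?_⟩)
      · show 1 ≤ x.1 - (f x).1
        omega
      · show x.1 - (f x).1 < D
        have a1 := Nat.div_add_mod (x.1 - A) D
        have a2 := Nat.div_add_mod ((f x).1 - A) D
        have a3 := Nat.mod_lt (x.1 - A) hD
        rw [hy1] at a2
        omega
      · exact zz_dvd hy2.le hy3.2.2 hx2.2.2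
    · intro x hx y hy hxy
      have hx2 := hTmem x (mem_filter.mp (mem_coe.mp hx)).1
      have hy2 := hTmem y (mem_filter.mp (mem_coe.mp hy)).1
      simp only [Prod.mk.injEq] at hxy
      have h4 : x.2 = y.2 := hxy.2.2
      have h3 : x.1 = y.1 := by
        refine exp_eq (k := x.2) hp hp2 hord hx2.1 hy2.1 hx2.2.2 ?_
        rw [h4]
        exact hy2.2.2
      exact Prod.ext h3 h4
  rw [hcard]
  omega

theorem card_odds_le (K : ℕ) : (odds K).card ≤ K := by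
  refine (card_filter_le _ _).trans ?_
  simp

/-- Sum over a set of primes of the numbers of incidences in a block. -/
theorem sum_block {K A L D : ℕ} (P : Finset ℕ) (hP : ∀ p ∈ P, p.Prime) (hP2 : ∀ p ∈ P, p ≠ 2)
    (hPK : ∀ p ∈ P, K < p) (hD : 0 < D) (hK : 1 ≤ K)
    (hord : ∀ p ∈ P, ∀ e, 1 ≤ e → e < L → ¬ p ∣ 2 ^ e - 1) :
    ∑ p ∈ P, log (p : ℝ) * ((TT (Ico A (A + L)) K p).card : ℝ) ≤
      ((L : ℝ) / D + 1) * ∑ p ∈ P, log (p : ℝ) + D * K ^ 2 * (log K + D * log 2) := by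
  classical
  have hlog : ∀ p : ℕ, 0 ≤ log (p : ℝ) := fun p => log_natCast_nonneg p
  have hlog2 : 0 ≤ log (2 : ℝ) := log_nonneg (by norm_num)
  have hLD : ((L / D + 1 : ℕ) : ℝ) ≤ (L : ℝ) / D + 1 := by
    push_cast
    have := @Nat.cast_div_le ℝ _ _ _ L D
    linarith
  have hstep : ∀ p ∈ P, log (p : ℝ) * ((TT (Ico A (A + L)) K p).card : ℝ) ≤
      ((L : ℝ) / D + 1) * log (p : ℝ)
        + ∑ v ∈ VV D K, (if (p : ℤ) ∣ zz v.1 v.2.1 v.2.2 then log (p : ℝ) else 0) := by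
    intro p hp
    have h1 := block (A := A) (hP p hp) (hP2 p hp) (hPK p hp) hD (hord p hp)
    have h2 : ((TT (Ico A (A + L)) K p).card : ℝ) ≤ ((L : ℝ) / D + 1)
        + (((VV D K).filter (fun v => (p : ℤ) ∣ zz v.1 v.2.1 v.2.2)).card : ℝ) := by
      have : ((TT (Ico A (A + L)) K p).card : ℝ) ≤ ((L / D + 1 : ℕ) : ℝ)
        + (((VV D K).filter (fun v => (p : ℤ) ∣ zz v.1 v.2.1 v.2.2)).card : ℝ) := by
        exact_mod_cast h1
      linarith
    have h3 := mul_le_mul_of_nonneg_left h2 (hlog p)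
    refine h3.trans (le_of_eq ?_)
    rw [mul_add, mul_comm (log (p : ℝ)) ((L : ℝ) / D + 1), ← sum_filter, sum_const, nsmul_eq_mul,
      mul_comm (log (p : ℝ)) (((VV D K).filter _).card : ℝ)]
  have hv : ∀ v ∈ VV D K, ∑ p ∈ P, (if (p : ℤ) ∣ zz v.1 v.2.1 v.2.2 then log (p : ℝ) else 0)
      ≤ log K + D * log 2 := by
    intro v hv
    obtain ⟨h1, h2⟩ := mem_product.mp hv
    obtain ⟨h3, h4⟩ := mem_product.mp h2
    have m1 := mem_Ico.mp h1
    have m3 := mem_Icc.mp (mem_filter.mp h3).1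
    have m4 := mem_Icc.mp (mem_filter.mp h4).1
    have hz : (zz v.1 v.2.1 v.2.2).natAbs ≠ 0 :=
      Int.natAbs_ne_zero.mpr (zz_ne (by omega) (mem_filter.mp h4).2)
    rw [← sum_filter]
    have h5 := sum_log_primes_le hz (P.filter (fun p : ℕ => (p : ℤ) ∣ zz v.1 v.2.1 v.2.2))
      (fun p hp => hP p (mem_filter.mp hp).1)
      (fun p hp => by
        have := (mem_filter.mp hp).2
        exact Int.natCast_dvd.mp this)
    refine h5.trans ?_
    have h6 := zz_abs (d := v.1) m3.2 m4.2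
    have hK0 : (0 : ℝ) < K := by exact_mod_cast hK
    have h7 : (((zz v.1 v.2.1 v.2.2).natAbs : ℕ) : ℝ) ≤ K * 2 ^ v.1 := by exact_mod_cast h6
    have h8 : (0 : ℝ) < (((zz v.1 v.2.1 v.2.2).natAbs : ℕ) : ℝ) := by
      exact_mod_cast Nat.pos_of_ne_zero hz
    calc log (((zz v.1 v.2.1 v.2.2).natAbs : ℕ) : ℝ) ≤ log (K * 2 ^ v.1) := log_le_log h8 h7
      _ = log K + v.1 * log 2 := by rw [log_mul hK0.ne' (by positivity), log_pow]
      _ ≤ log K + D * log 2 := by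
          have : (v.1 : ℝ) ≤ D := by exact_mod_cast m1.2.le
          gcongr
  have hlogK : 0 ≤ log (K : ℝ) := hlog K
  have hVcard : ((VV D K).card : ℝ) ≤ D * K ^ 2 := by
    have h1 : (VV D K).card ≤ D * (K * K) := by
      rw [card_product, card_product, Nat.card_Ico]
      have := card_odds_le K
      gcongr
      omega
    calc ((VV D K).card : ℝ) ≤ ((D * (K * K) : ℕ) : ℝ) := by exact_mod_cast h1
      _ = D * K ^ 2 := by push_cast; ring
  calc ∑ p ∈ P, log (p : ℝ) * ((TT (Ico A (A + L)) K p).card : ℝ)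
      ≤ ∑ p ∈ P, (((L : ℝ) / D + 1) * log (p : ℝ)
        + ∑ v ∈ VV D K, (if (p : ℤ) ∣ zz v.1 v.2.1 v.2.2 then log (p : ℝ) else 0)) :=
        sum_le_sum hstep
    _ = ((L : ℝ) / D + 1) * ∑ p ∈ P, log (p : ℝ)
        + ∑ v ∈ VV D K, ∑ p ∈ P, (if (p : ℤ) ∣ zz v.1 v.2.1 v.2.2 then log (p : ℝ) else 0) := by
        rw [sum_add_distrib, ← mul_sum, sum_comm]
    _ ≤ ((L : ℝ) / D + 1) * ∑ p ∈ P, log (p : ℝ) + ∑ v ∈ VV D K, (log K + D * log 2) := by
        gcongr with v hv'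
        exact hv v hv'
    _ ≤ _ := by
        rw [sum_const, nsmul_eq_mul]
        gcongr

theorem sum_biUnion_le' {ι : Type*} [DecidableEq ι] (s : Finset ι) (t : ι → Finset ℕ) (f : ℕ → ℝ)
    (hf : ∀ x, 0 ≤ f x) : ∑ x ∈ s.biUnion t, f x ≤ ∑ i ∈ s, ∑ x ∈ t i, f x := by
  classical
  induction s using Finset.induction_on with
  | empty => simp
  | insert a s ha ih =>
    rw [biUnion_insert, sum_insert ha]
    have h1 : ∑ x ∈ t a ∪ s.biUnion t, f x ≤ ∑ x ∈ t a, f x + ∑ x ∈ s.biUnion t, f x := by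
      rw [← sum_union_inter]
      have : 0 ≤ ∑ x ∈ t a ∩ s.biUnion t, f x := sum_nonneg fun x _ => hf x
      linarith
    linarith

/-- Primes for which `2` has small order are few. -/
theorem sum_small_order {E : ℕ} (P : Finset ℕ) (hP : ∀ p ∈ P, p.Prime)
    (hord : ∀ p ∈ P, ∃ e, 1 ≤ e ∧ e ≤ E ∧ p ∣ 2 ^ e - 1) :
    ∑ p ∈ P, log (p : ℝ) ≤ (E : ℝ) ^ 2 := by
  classical
  have hlog : ∀ p : ℕ, 0 ≤ log (p : ℝ) := fun p => log_natCast_nonneg p
  have hlog2 : log (2 : ℝ) ≤ 1 := by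
    have := log_two_lt_d9
    linarith
  have hlog2' : 0 ≤ log (2 : ℝ) := log_nonneg (by norm_num)
  have hsub : P ⊆ (Icc 1 E).biUnion (fun e => P.filter (fun p => p ∣ 2 ^ e - 1)) := by
    intro p hp
    obtain ⟨e, h1, h2, h3⟩ := hord p hp
    exact mem_biUnion.mpr ⟨e, mem_Icc.mpr ⟨h1, h2⟩, mem_filter.mpr ⟨hp, h3⟩⟩
  calc ∑ p ∈ P, log (p : ℝ)
      ≤ ∑ p ∈ (Icc 1 E).biUnion (fun e => P.filter (fun p => p ∣ 2 ^ e - 1)), log (p : ℝ) :=
        sum_le_sum_of_subset_of_nonneg hsub fun p _ _ => hlog p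
    _ ≤ ∑ e ∈ Icc 1 E, ∑ p ∈ P.filter (fun p => p ∣ 2 ^ e - 1), log (p : ℝ) :=
        sum_biUnion_le' _ _ _ hlog
    _ ≤ ∑ e ∈ Icc 1 E, (E : ℝ) := by
        refine sum_le_sum fun e he => ?_
        have he' := mem_Icc.mp he
        have h2 : 2 ≤ 2 ^ e := by
          calc 2 = 2 ^ 1 := by norm_num
            _ ≤ 2 ^ e := Nat.pow_le_pow_right (by norm_num) he'.1
        have hz : 2 ^ e - 1 ≠ 0 := by omega
        refine (sum_log_primes_le hz _ (fun p hp => hP p (mem_filter.mp hp).1)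
          (fun p hp => (mem_filter.mp hp).2)).trans ?_
        have h3 : ((2 ^ e - 1 : ℕ) : ℝ) ≤ 2 ^ e := by
          have : 2 ^ e - 1 ≤ 2 ^ e := by omega
          exact_mod_cast this
        have h4 : (0 : ℝ) < ((2 ^ e - 1 : ℕ) : ℝ) := by
          exact_mod_cast Nat.pos_of_ne_zero hz
        calc log ((2 ^ e - 1 : ℕ) : ℝ) ≤ log (2 ^ e) := log_le_log h4 h3
          _ = e * log 2 := log_pow _ _
          _ ≤ E * 1 := by
              have : (e : ℝ) ≤ E := by exact_mod_cast he'.2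
              gcongr
          _ = E := mul_one _
    _ = (E : ℝ) ^ 2 := by
        rw [sum_const, nsmul_eq_mul, Nat.card_Icc, Nat.add_sub_cancel]
        ring

end Pool.Agent.H87.Rad
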