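import Mathlib
import Pool.Agent.H87.Rad.Base

open Finset Filter Real

namespace Pool.Agent.H87.Rad

/-- Logarithm of the product of the distinct primes `≤ Y` dividing `m`. -/
noncomputable abbrev RS (Y m : ℕ) : ℝ := ∑ p ∈ (Nat.primesLE Y).filter (fun p => p ∣ m), log (p : ℝ)

theorem sum_RS (I : Finset ℕ) (K Y : ℕ) :
    ∑ n ∈ I, ∑ k ∈ odds K, RS Y (2 ^ n + k)
      = ∑ p ∈ Nat.primesLE Y, log (p : ℝ) * ((TT I K p).card : ℝ) := by
  classical
  have h1 : ∑ n ∈ I, ∑ k ∈ odds K, RS Y (2 ^ n + k)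
      = ∑ x ∈ I ×ˢ odds K, ∑ p ∈ Nat.primesLE Y,
          (if p ∣ 2 ^ x.1 + x.2 then log (p : ℝ) else 0) := by
    rw [sum_product]
    refine sum_congr rfl fun n _ => sum_congr rfl fun k _ => ?_
    rw [RS, sum_filter]
  rw [h1, sum_comm]
  refine sum_congr rfl fun p _ => ?_
  rw [← sum_filter, sum_const, nsmul_eq_mul, mul_comm]

theorem card_small {p K n : ℕ} (hp : 0 < p) :
    ((odds K).filter (fun k => p ∣ 2 ^ n + k)).card ≤ K / p + 2 := by
  rw [← card_range (K / p + 2)]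
  refine card_le_card_of_injOn (fun k => (2 ^ n + k) / p - 2 ^ n / p) ?_ ?_
  · intro k hk
    have hk1 := mem_Icc.mp (mem_filter.mp (mem_filter.mp (mem_coe.mp hk)).1).1
    rw [mem_coe, mem_range]
    have h1 : (2 ^ n + k) / p ≤ 2 ^ n / p + k / p + 1 := by
      have a1 := Nat.div_add_mod (2 ^ n) p
      have a2 := Nat.div_add_mod k p
      have a3 := Nat.mod_lt (2 ^ n) hp
      have a4 := Nat.mod_lt k hp
      have : (2 ^ n + k) / p < 2 ^ n / p + k / p + 2 := by
        rw [Nat.div_lt_iff_lt_mul hp]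
        have e : (2 ^ n / p + k / p + 2) * p = p * (2 ^ n / p) + p * (k / p) + 2 * p := by ring
        rw [e]
        omega
      omega
    have h2 : k / p ≤ K / p := Nat.div_le_div_right hk1.2
    show (2 ^ n + k) / p - 2 ^ n / p < K / p + 2
    generalize (2 ^ n + k) / p = a at *
    generalize 2 ^ n / p = b at *
    generalize k / p = c at *
    generalize K / p = d at *
    omega
  · intro k hk k' hk' h
    have d1 := (mem_filter.mp (mem_coe.mp hk)).2
    have d2 := (mem_filter.mp (mem_coe.mp hk')).2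
    have e1 := Nat.div_mul_cancel d1
    have e2 := Nat.div_mul_cancel d2
    have m1 : 2 ^ n / p ≤ (2 ^ n + k) / p := Nat.div_le_div_right (by omega)
    have m2 : 2 ^ n / p ≤ (2 ^ n + k') / p := Nat.div_le_div_right (by omega)
    simp only at h
    have h3 : (2 ^ n + k) / p = (2 ^ n + k') / p := by omega
    rw [h3] at e1
    omega

theorem card_TT_small {p K : ℕ} (hp : 0 < p) (I : Finset ℕ) :
    (TT I K p).card ≤ I.card * (K / p + 2) := by
  classical
  have h1 : (TT I K p).card = ∑ n ∈ I, ((odds K).filter (fun k => p ∣ 2 ^ n + k)).card := by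
    rw [card_filter, sum_product]
    refine sum_congr rfl fun n _ => ?_
    rw [card_filter]
  rw [h1, ← smul_eq_mul]
  exact sum_le_card_nsmul _ _ _ fun n _ => card_small hp

theorem card_TT_large {p K : ℕ} (hpK : K < p) (I : Finset ℕ) :
    (TT I K p).card ≤ I.card := by
  refine card_le_card_of_injOn (fun x => x.1) ?_ ?_
  · intro x hx
    exact mem_coe.mpr (mem_product.mp (mem_filter.mp (mem_coe.mp hx)).1).1
  · intro x hx y hy h
    have hx1 := mem_filter.mp (mem_coe.mp hx)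
    have hy1 := mem_filter.mp (mem_coe.mp hy)
    simp only at h
    refine Prod.ext h ?_
    refine eq_of_dvd_add (n := x.1) hpK (mem_product.mp hx1.1).2 (mem_product.mp hy1.1).2 hx1.2 ?_
    rw [h]
    exact hy1.2

theorem sum_P0 (N M K : ℕ) (hK : 1 ≤ K) (P : Finset ℕ) (hP : ∀ p ∈ P, p.Prime)
    (hPK : ∀ p ∈ P, p ≤ K) :
    ∑ p ∈ P, log (p : ℝ) * ((TT (Ico N (N + M)) K p).card : ℝ)
      ≤ M * (3 * K * (log K * (1 + log K))) := by
  classical
  have hlog : ∀ p : ℕ, 0 ≤ log (p : ℝ) := fun p => log_natCast_nonneg p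
  have hK0 : (0 : ℝ) < K := by exact_mod_cast hK
  have h1 : ∀ p ∈ P, log (p : ℝ) * ((TT (Ico N (N + M)) K p).card : ℝ)
      ≤ M * (3 * K * log K) * ((p : ℝ))⁻¹ := by
    intro p hp
    have hp0 : 0 < p := (hP p hp).pos
    have hp0' : (0 : ℝ) < p := by exact_mod_cast hp0
    have h2 := card_TT_small (K := K) hp0 (Ico N (N + M))
    rw [Nat.card_Ico, Nat.add_sub_cancel_left] at h2
    have h3 : ((TT (Ico N (N + M)) K p).card : ℝ) ≤ M * (3 * K * ((p : ℝ))⁻¹) := by
      have h4 : ((TT (Ico N (N + M)) K p).card : ℝ) ≤ M * (((K / p : ℕ) : ℝ) + 2) := by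
        exact_mod_cast h2
      refine h4.trans ?_
      have h5 : ((K / p : ℕ) : ℝ) ≤ K * ((p : ℝ))⁻¹ := by
        have := @Nat.cast_div_le ℝ _ _ _ K p
        rwa [div_eq_mul_inv] at this
      have h6 : (1 : ℝ) ≤ K * ((p : ℝ))⁻¹ := by
        rw [← div_eq_mul_inv, one_le_div hp0']
        exact_mod_cast hPK p hp
      have h7 : ((K / p : ℕ) : ℝ) + 2 ≤ 3 * K * ((p : ℝ))⁻¹ := by
        have : 3 * K * ((p : ℝ))⁻¹ = K * ((p : ℝ))⁻¹ + 2 * (K * ((p : ℝ))⁻¹) := by ring
        linarith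
      gcongr
    have h8 : log (p : ℝ) ≤ log K := log_le_log hp0' (by exact_mod_cast hPK p hp)
    calc log (p : ℝ) * ((TT (Ico N (N + M)) K p).card : ℝ)
        ≤ log K * (M * (3 * K * ((p : ℝ))⁻¹)) := by
          gcongr
      _ = _ := by ring
  calc ∑ p ∈ P, log (p : ℝ) * ((TT (Ico N (N + M)) K p).card : ℝ)
      ≤ ∑ p ∈ P, M * (3 * K * log K) * ((p : ℝ))⁻¹ := sum_le_sum h1
    _ ≤ ∑ p ∈ Icc 1 K, M * (3 * K * log K) * ((p : ℝ))⁻¹ := by
        refine sum_le_sum_of_subset_of_nonneg ?_ ?_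
        · intro p hp
          exact mem_Icc.mpr ⟨(hP p hp).one_lt.le, hPK p hp⟩
        · intro p _ _
          have := hlog K
          positivity
    _ = M * (3 * K * log K) * ((harmonic K : ℚ) : ℝ) := by
        rw [← mul_sum, harmonic_eq_sum_Icc]
        push_cast
        rfl
    _ ≤ M * (3 * K * log K) * (1 + log K) := by
        have h2 := harmonic_le_one_add_log K
        have := hlog K
        gcongr
    _ = _ := by ring

theorem card_cover (N M K L p : ℕ) (hL : 0 < L) :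
    (TT (Ico N (N + M)) K p).card ≤
      ∑ j ∈ range (M / L + 1), (TT (Ico (N + j * L) (N + j * L + L)) K p).card := by
  classical
  have hsub : TT (Ico N (N + M)) K p ⊆
      (range (M / L + 1)).biUnion (fun j => TT (Ico (N + j * L) (N + j * L + L)) K p) := by
    intro x hx
    obtain ⟨h1, h2⟩ := mem_filter.mp hx
    obtain ⟨h3, h4⟩ := mem_product.mp h1
    have m := mem_Ico.mp h3
    refine mem_biUnion.mpr ⟨(x.1 - N) / L, ?_, mem_filter.mpr ⟨mem_product.mpr ⟨?_, h4⟩, h2⟩⟩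
    · rw [mem_range]
      have : (x.1 - N) / L ≤ M / L := Nat.div_le_div_right (by omega)
      exact Nat.lt_succ_of_le this
    · have a1 := Nat.div_add_mod (x.1 - N) L
      have a3 := Nat.mod_lt (x.1 - N) hL
      rw [mem_Ico]
      have e : (x.1 - N) / L * L = L * ((x.1 - N) / L) := Nat.mul_comm _ _
      rw [e]
      omega
  exact (card_le_card hsub).trans card_biUnion_le

theorem total (N M K Y D L D' : ℕ) (hK : 2 ≤ K) (hD : 0 < D) (hL : 0 < L)
    (hD' : 0 < D') :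
    ∑ n ∈ Ico N (N + M), ∑ k ∈ odds K, RS Y (2 ^ n + k) ≤
      M * (3 * K * (log K * (1 + log K)))
      + (((M : ℝ) / D + 1) * Chebyshev.theta Y + D * K ^ 2 * (log K + D * log 2))
      + ((M : ℝ) / L + 1) * (((L : ℝ) / D' + 1) * M ^ 2 + D' * K ^ 2 * (log K + D' * log 2))
      + M * L ^ 2 := by
  classical
  have hlog : ∀ p : ℕ, 0 ≤ log (p : ℝ) := fun p => log_natCast_nonneg p
  rw [sum_RS]
  set Q := Nat.primesLE Y with hQ
  have hQp : ∀ p ∈ Q, p.Prime := fun p hp => (Nat.mem_primesLE.mp hp).2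
  set P0 := Q.filter (fun p => p ≤ K) with hP0
  set R0 := Q.filter (fun p => ¬ p ≤ K) with hR0
  set P3 := R0.filter (fun p => ∃ e, 1 ≤ e ∧ e ≤ L - 1 ∧ p ∣ 2 ^ e - 1) with hP3
  set R3 := R0.filter (fun p => ¬ ∃ e, 1 ≤ e ∧ e ≤ L - 1 ∧ p ∣ 2 ^ e - 1) with hR3
  set P2 := R3.filter (fun p => ∃ e, 1 ≤ e ∧ e ≤ M ∧ p ∣ 2 ^ e - 1) with hP2
  set P1 := R3.filter (fun p => ¬ ∃ e, 1 ≤ e ∧ e ≤ M ∧ p ∣ 2 ^ e - 1) with hP1
  set f : ℕ → ℝ := fun p => log (p : ℝ) * ((TT (Ico N (N + M)) K p).card : ℝ) with hf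
  have hsplit : ∑ p ∈ Q, f p = ∑ p ∈ P0, f p + (∑ p ∈ P3, f p + (∑ p ∈ P2, f p + ∑ p ∈ P1, f p)) := by
    rw [hP1, hP2, sum_filter_add_sum_filter_not, hP3, hR3, sum_filter_add_sum_filter_not, hP0, hR0,
      sum_filter_add_sum_filter_not]
  have hR0p : ∀ p ∈ R0, p.Prime ∧ K < p ∧ p ≠ 2 ∧ p ∈ Q := by
    intro p hp
    obtain ⟨h1, h2⟩ := mem_filter.mp hp
    exact ⟨hQp p h1, by omega, by omega, h1⟩
  have hR3p : ∀ p ∈ R3, p ∈ R0 := fun p hp => (mem_filter.mp hp).1
  -- P0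
  have b0 : ∑ p ∈ P0, f p ≤ M * (3 * K * (log K * (1 + log K))) :=
    sum_P0 N M K (by omega) P0 (fun p hp => hQp p (mem_filter.mp hp).1)
      (fun p hp => (mem_filter.mp hp).2)
  -- P3
  have b3 : ∑ p ∈ P3, f p ≤ M * L ^ 2 := by
    have h1 : ∀ p ∈ P3, f p ≤ M * log (p : ℝ) := by
      intro p hp
      have h2 := card_TT_large (hR0p p (mem_filter.mp hp).1).2.1 (Ico N (N + M))
      rw [Nat.card_Ico, Nat.add_sub_cancel_left] at h2
      have h3 : ((TT (Ico N (N + M)) K p).card : ℝ) ≤ M := by exact_mod_cast h2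
      calc f p ≤ log (p : ℝ) * M := by
            simp only [hf]
            have := hlog p
            gcongr
        _ = _ := mul_comm _ _
    have h2 := sum_small_order (E := L - 1) P3 (fun p hp => (hR0p p (mem_filter.mp hp).1).1)
      (fun p hp => (mem_filter.mp hp).2)
    have h3 : ((L - 1 : ℕ) : ℝ) ^ 2 ≤ (L : ℝ) ^ 2 := by
      have : ((L - 1 : ℕ) : ℝ) ≤ L := by exact_mod_cast Nat.sub_le _ _
      gcongr
    calc ∑ p ∈ P3, f p ≤ ∑ p ∈ P3, M * log (p : ℝ) := sum_le_sum h1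
      _ = M * ∑ p ∈ P3, log (p : ℝ) := by rw [mul_sum]
      _ ≤ M * L ^ 2 := by
          have := h2.trans h3
          gcongr
  -- P1
  have b1 : ∑ p ∈ P1, f p ≤
      ((M : ℝ) / D + 1) * Chebyshev.theta Y + D * K ^ 2 * (log K + D * log 2) := by
    have h1 := sum_block (A := N) (L := M) (K := K) (D := D) P1
      (fun p hp => (hR0p p (hR3p p (mem_filter.mp hp).1)).1)
      (fun p hp => (hR0p p (hR3p p (mem_filter.mp hp).1)).2.2.1)
      (fun p hp => (hR0p p (hR3p p (mem_filter.mp hp).1)).2.1) hD (by omega)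
      (fun p hp e he1 he2 hdv => (mem_filter.mp hp).2 ⟨e, he1, by omega, hdv⟩)
    have h2 : ∑ p ∈ P1, log (p : ℝ) ≤ Chebyshev.theta Y := by
      have h3 : ∑ p ∈ P1, log (p : ℝ) ≤ ∑ p ∈ Q, log (p : ℝ) := by
        refine sum_le_sum_of_subset_of_nonneg ?_ fun p _ _ => hlog p
        intro p hp
        exact (hR0p p (hR3p p (mem_filter.mp hp).1)).2.2.2
      refine h3.trans (le_of_eq ?_)
      rw [Chebyshev.theta_eq_sum_primesLE]
      simp [hQ]
    have h4 : (((M : ℝ)) / D + 1) * ∑ p ∈ P1, log (p : ℝ)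
        ≤ ((M : ℝ) / D + 1) * Chebyshev.theta Y := by
      gcongr
    linarith
  -- P2
  have b2 : ∑ p ∈ P2, f p ≤
      ((M : ℝ) / L + 1) * (((L : ℝ) / D' + 1) * M ^ 2 + D' * K ^ 2 * (log K + D' * log 2)) := by
    have hlogsum := sum_small_order (E := M) P2
      (fun p hp => (hR0p p (hR3p p (mem_filter.mp hp).1)).1) (fun p hp => (mem_filter.mp hp).2)
    set B : ℝ := ((L : ℝ) / D' + 1) * M ^ 2 + D' * K ^ 2 * (log K + D' * log 2) with hB
    have hB0 : 0 ≤ B := by
      have := hlog K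
      have hlog2 : 0 ≤ log (2 : ℝ) := log_nonneg (by norm_num)
      positivity
    have hblk : ∀ j ∈ range (M / L + 1), ∑ p ∈ P2, log (p : ℝ) *
        ((TT (Ico (N + j * L) (N + j * L + L)) K p).card : ℝ) ≤ B := by
      intro j _
      have h1 := sum_block (A := N + j * L) (L := L) (K := K) (D := D') P2
        (fun p hp => (hR0p p (hR3p p (mem_filter.mp hp).1)).1)
        (fun p hp => (hR0p p (hR3p p (mem_filter.mp hp).1)).2.2.1)
        (fun p hp => (hR0p p (hR3p p (mem_filter.mp hp).1)).2.1) hD' (by omega)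
        (fun p hp e he1 he2 hdv =>
          (mem_filter.mp (mem_filter.mp hp).1).2 ⟨e, he1, by omega, hdv⟩)
      refine h1.trans ?_
      rw [hB]
      gcongr
    calc ∑ p ∈ P2, f p
        ≤ ∑ p ∈ P2, log (p : ℝ) * ∑ j ∈ range (M / L + 1),
            ((TT (Ico (N + j * L) (N + j * L + L)) K p).card : ℝ) := by
          refine sum_le_sum fun p _ => ?_
          have h1 : ((TT (Ico N (N + M)) K p).card : ℝ) ≤ ∑ j ∈ range (M / L + 1),
              ((TT (Ico (N + j * L) (N + j * L + L)) K p).card : ℝ) := by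
            exact_mod_cast card_cover N M K L p hL
          exact mul_le_mul_of_nonneg_left h1 (hlog p)
      _ = ∑ j ∈ range (M / L + 1), ∑ p ∈ P2, log (p : ℝ) *
            ((TT (Ico (N + j * L) (N + j * L + L)) K p).card : ℝ) := by
          rw [sum_comm]
          refine sum_congr rfl fun p _ => ?_
          rw [mul_sum]
      _ ≤ ∑ j ∈ range (M / L + 1), B := sum_le_sum hblk
      _ = ((M / L + 1 : ℕ) : ℝ) * B := by
          rw [sum_const, nsmul_eq_mul, card_range]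
      _ ≤ ((M : ℝ) / L + 1) * B := by
          have h1 : ((M / L + 1 : ℕ) : ℝ) ≤ (M : ℝ) / L + 1 := by
            push_cast
            have := @Nat.cast_div_le ℝ _ _ _ M L
            linarith
          gcongr
  rw [hsplit]
  linarith

end Pool.Agent.H87.Rad
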